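import Pool.Agent.T2H20.AH.Gh

/-!
# The exceptions of Oesterlé's inequality with members of prescribed radicals, at all heights

For every `ε > 0` there are an exponent `M` and a constant `C` such that the following holds for the
abc triples of any height with `rad (abc) ≤ X` which violate `c < rad (abc) ^ M`: for every `r` at
most `C X ^ ε (X / r) ^ (1/4)` of them have a member of radical `r` (for instance a given number `n`
with `rad n = r`), at most `C X ^ ε √B` of them have a member of radical `r` and another one of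
radical at most `B`, and for all `r`, `s` at most `C X ^ ε` of them have two members of radicals `r`
and `s`. All this is uniform in `r` and `s`.

The proof: the method of `SquareRootAllHeights` is carried out for the triples two members of which
have radicals in families `F₁`, `F₂` which are closed under divisors; the energies of the classes of
products are bounded by the numbers of elements of these families. Here the families are the
divisors of `r`, the divisors of `s`, or all integers.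
-/

set_option autoImplicit false

namespace Pool.Agent.Results.MP_2ec8a3_nt.PrescribedRadicals

/-- the product of the primes dividing `n` -/
def radical (n : ℕ) : ℕ := ∏ p ∈ n.primeFactors, p

/-- the radical of `abc` for the triple `(a, b, a + b)` written `(a, b)` -/
def rad3 (q : ℕ × ℕ) : ℕ := radical (q.1 * q.2 * (q.1 + q.2))

/-- the members `a`, `b`, `c` of the triple `(a, b, a + b)` written `(a, b)` -/
def member (q : ℕ × ℕ) : Fin 3 → ℕ := ![q.1, q.2, q.1 + q.2]

/-- the exceptions to Oesterlé's inequality with the exponent `M`, of radical at most `X`: the abc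
triples `(a, b, c)`, `c = a + b`, written `(a, b)`, where `a, b ≥ 1` are coprime,
`rad (abc) ≤ X` and `rad (abc) ^ M ≤ c`; there is no restriction on the size of `c` -/
def exceptions (M X : ℕ) : Set (ℕ × ℕ) :=
  {q | (0 < q.1 ∧ 0 < q.2 ∧ Nat.Coprime q.1 q.2) ∧ rad3 q ≤ X ∧ rad3 q ^ M ≤ q.1 + q.2}

open Pool.Agent.T2H20.ABC Pool.Agent.T2H20.AH Pool.Agent.H785R2.ABC Pool.Agent.H785R2.ABC.EC

theorem member_eq (q : ℕ × ℕ) (i : Fin 3) : member q i = num (tri q) i := by
  have h : ∀ i : Fin 3, i = 0 ∨ i = 1 ∨ i = 2 := by decide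
  rcases h i with rfl | rfl | rfl <;> rfl

/-- a bound for all finite subsets is a bound for the set -/
theorem of_bound {S : Set (ℕ × ℕ)} {B : ℝ}
    (hB : ∀ Q : Finset (ℕ × ℕ), (∀ q ∈ Q, q ∈ S) → (Q.card : ℝ) ≤ B) :
    S.Finite ∧ (S.ncard : ℝ) ≤ B := by
  have hf : S.Finite := by
    by_contra hcon
    obtain ⟨t, ht, hc⟩ := Set.Infinite.exists_subset_card_eq hcon (⌊B⌋₊ + 1)
    have h1 := hB t fun q hq => ht (Finset.mem_coe.2 hq)
    rw [hc] at h1
    have h2 := Nat.lt_floor_add_one B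
    push_cast at h1
    linarith
  refine ⟨hf, ?_⟩
  rw [Set.ncard_eq_toFinset_card S hf]
  exact hB _ fun q hq => hf.mem_toFinset.mp hq

/-- **The exceptions with members of prescribed radicals, at all heights.** For every `ε > 0` there
are `M` and `C` such that for all `X` and `r`: (1) at most `C X ^ ε (X / r) ^ (1/4)` exceptions have
a member of radical `r`; (2) for all `B` at most `C X ^ ε √B` exceptions have a member of radical
`r` and another member of radical at most `B`; (3) for all `s` at most `C X ^ ε` exceptions have two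
members of radicals `r` and `s`. -/
theorem result : ∀ ε : ℝ, 0 < ε → ∃ M : ℕ, ∃ C : ℝ, 1 ≤ M ∧ 0 < C ∧ ∀ X r : ℕ, 1 ≤ X → 1 ≤ r →
    ({q | q ∈ exceptions M X ∧ ∃ i, radical (member q i) = r}.Finite ∧
      ({q | q ∈ exceptions M X ∧ ∃ i, radical (member q i) = r}.ncard : ℝ) ≤
        C * (X : ℝ) ^ ε * ((X : ℝ) / r) ^ ((1 : ℝ) / 4)) ∧
    (∀ B : ℕ, 1 ≤ B →
      ({q | q ∈ exceptions M X ∧ ∃ i j, i ≠ j ∧ radical (member q i) = r ∧
        radical (member q j) ≤ B}.ncard : ℝ) ≤ C * (X : ℝ) ^ ε * Real.sqrt B) ∧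
    (∀ s : ℕ, 1 ≤ s →
      ({q | q ∈ exceptions M X ∧ ∃ i j, i ≠ j ∧ radical (member q i) = r ∧
        radical (member q j) = s}.ncard : ℝ) ≤ C * (X : ℝ) ^ ε) := by
  intro ε hε
  obtain ⟨M, C, hM, hC, h⟩ := prescribed ε hε
  refine ⟨M, C, hM, hC, fun X r hX hr => ?_⟩
  have hX1 : (1 : ℝ) ≤ X := by exact_mod_cast hX
  have hX0 : (0 : ℝ) < X := by linarith
  have hr0 : (0 : ℝ) < r := by exact_mod_cast hr
  refine ⟨of_bound fun Q hQ => ?_, fun B hB => (of_bound fun Q hQ => ?_).2,
    fun s hs => (of_bound fun Q hQ => ?_).2⟩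
  · rcases Q.eq_empty_or_nonempty with h0 | ⟨q0, hq0⟩
    · rw [h0, Finset.card_empty, Nat.cast_zero]
      positivity
    have hrX : r ≤ X := by
      obtain ⟨⟨⟨g1, g2, g3⟩, g4, g5⟩, i, hi⟩ := hQ q0 hq0
      rw [← hi, member_eq]
      exact rads_le' g1 g2 g4 i
    have hXr : (1 : ℝ) ≤ (X : ℝ) / r := by
      rw [le_div_iff₀ hr0, one_mul]
      exact_mod_cast hrX
    obtain ⟨B, hB⟩ : ∃ B, B = ⌊Real.sqrt ((X : ℝ) / r)⌋₊ := ⟨_, rfl⟩
    have hB1 : 1 ≤ B := by
      rw [hB]
      apply Nat.le_floor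
      rw [Nat.cast_one]
      exact Real.one_le_sqrt.2 hXr
    have hB2 : (B : ℝ) ≤ Real.sqrt ((X : ℝ) / r) := by
      rw [hB]
      exact Nat.floor_le (Real.sqrt_nonneg _)
    have h1 := (h X r hX hr Q (by
      intro q hq
      obtain ⟨⟨⟨g1, g2, g3⟩, g4, g5⟩, -⟩ := hQ q hq
      exact ⟨g1, g2, g3, g4, g5⟩)).2 B hB1 (by
      intro q hq
      obtain ⟨⟨⟨g1, g2, g3⟩, g4, g5⟩, i, hi⟩ := hQ q hq
      rw [member_eq] at hi
      obtain ⟨j, k, hij, hjk, hik, hle⟩ : ∃ j k : Fin 3, i ≠ j ∧ j ≠ k ∧ i ≠ k ∧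
          rad (num (tri q) j) ≤ rad (num (tri q) k) := by
        have hex : ∀ i : Fin 3, ∃ j k : Fin 3, i ≠ j ∧ j ≠ k ∧ i ≠ k := by decide
        obtain ⟨j, k, a, b, c⟩ := hex i
        rcases Nat.le_total (rad (num (tri q) j)) (rad (num (tri q) k)) with h1 | h1
        · exact ⟨j, k, a, b, c, h1⟩
        · exact ⟨k, j, c, b.symm, a, h1⟩
      refine ⟨i, j, hij, hi, ?_⟩
      have hpr := rad_prod' g1 g2 g3 hij hjk hik
      have g4' : rad (q.1 * q.2 * (q.1 + q.2)) ≤ X := g4
      have hi' : rad (num (tri q) i) = r := hi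
      rw [hpr, hi'] at g4'
      rw [hB]
      apply Nat.le_floor
      apply Real.le_sqrt_of_sq_le
      rw [le_div_iff₀ hr0]
      have h2 : rad (num (tri q) j) ^ 2 * r ≤ X := by
        calc rad (num (tri q) j) ^ 2 * r = r * rad (num (tri q) j) * rad (num (tri q) j) := by ring
          _ ≤ r * rad (num (tri q) j) * rad (num (tri q) k) := Nat.mul_le_mul_left _ hle
          _ ≤ X := g4'
      exact_mod_cast h2)
    refine h1.trans ?_
    apply mul_le_mul_of_nonneg_left _ (by positivity)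
    calc Real.sqrt B ≤ Real.sqrt (Real.sqrt ((X : ℝ) / r)) := Real.sqrt_le_sqrt hB2
      _ = ((X : ℝ) / r) ^ ((1 : ℝ) / 4) := by
          rw [Real.sqrt_eq_rpow, Real.sqrt_eq_rpow, ← Real.rpow_mul (by positivity)]
          norm_num
  · refine (h X r hX hr Q (by
      intro q hq
      obtain ⟨⟨⟨g1, g2, g3⟩, g4, g5⟩, -⟩ := hQ q hq
      exact ⟨g1, g2, g3, g4, g5⟩)).2 B hB ?_
    intro q hq
    obtain ⟨-, i, j, hij, h1, h2⟩ := hQ q hq
    rw [member_eq] at h1 h2
    exact ⟨i, j, hij, h1, h2⟩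
  · refine (h X r hX hr Q (by
      intro q hq
      obtain ⟨⟨⟨g1, g2, g3⟩, g4, g5⟩, -⟩ := hQ q hq
      exact ⟨g1, g2, g3, g4, g5⟩)).1 s hs ?_
    intro q hq
    obtain ⟨-, i, j, hij, h1, h2⟩ := hQ q hq
    rw [member_eq] at h1 h2
    exact ⟨i, j, hij, h1, h2⟩

end Pool.Agent.Results.MP_2ec8a3_nt.PrescribedRadicals
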