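import Pool.Agent.Results.MP_2ec8a3_nt.SquareRootAllHeights
import Pool.Agent.T2H21.RS.Prob

/-!
# Oesterlé's weak form of the abc conjecture for the triples supported on a random set of primes

Let `γ > 1/3` and let `S` be a random set of primes such that all the primes of a finite set `D`
belong to `S` with probability at most `∏_{p ∈ D} p ^ (-γ)`, for instance because they are chosen
independently with the probabilities `p ^ (-γ)`. There is an exponent `M`, which depends only on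
`γ`, such that almost surely, for every finite set `T` of primes, all but finitely many of the abc
triples, of any height, all of whose primes belong to `S ∪ T` satisfy `c < rad (abc) ^ M`. Hence
almost surely Oesterlé's conjecture is true for the triples supported on `S ∪ T`, for all finite `T`.

This follows from the square root bound at all heights: at most `C X ^ (1/3 + ε)` abc triples with
`rad (abc) ≤ X`, of any height, violate `c < rad (abc) ^ M`, so that the sum of `rad (abc) ^ (-γ)`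
over the violating triples converges.
-/

set_option autoImplicit false

namespace Pool.Agent.Results.MP_2ec8a3_nt.RandomPrimeSupport

open MeasureTheory Finset
open Pool.Agent.Results.MP_2ec8a3_nt.SquareRootAllHeights (exceptions)

/-- the abc triples `(a, b, a + b)`, written `(a, b)`: `a`, `b ≥ 1` are coprime -/
def IsTriple (t : ℕ × ℕ) : Prop := 0 < t.1 ∧ 0 < t.2 ∧ Nat.Coprime t.1 t.2

/-- the radical of `abc` for the triple `(a, b, a + b)` written `(a, b)` -/
def rad (t : ℕ × ℕ) : ℕ := ∏ p ∈ (t.1 * t.2 * (t.1 + t.2)).primeFactors, p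

/-- `E p` is the event that the prime `p` belongs to the random set: all the primes of a finite set
`D` belong to it with probability at most `∏_{p ∈ D} p ^ (-γ)` -/
def IsSparse {Ω : Type*} [MeasurableSpace Ω] (P : Measure Ω) (γ : ℝ) (E : ℕ → Set Ω) : Prop :=
  ∀ D : Finset ℕ, (∀ p ∈ D, p.Prime) →
    P (⋂ p ∈ D, E p) ≤ ENNReal.ofReal (∏ p ∈ D, (p : ℝ) ^ (-γ))

/-- all the primes dividing `abc` belong to the random set or to `T`, for the outcome `ω` -/
def Supported {Ω : Type*} (E : ℕ → Set Ω) (T : Finset ℕ) (ω : Ω) (t : ℕ × ℕ) : Prop :=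
  ∀ p : ℕ, p.Prime → p ∣ t.1 * t.2 * (t.1 + t.2) → p ∈ T ∨ ω ∈ E p

theorem two_le_rad {t : ℕ × ℕ} (h : IsTriple t) : 2 ≤ rad t := by
  obtain ⟨h1, h2, h3⟩ := h
  have hm0 : t.1 * t.2 * (t.1 + t.2) ≠ 0 :=
    (Nat.mul_pos (Nat.mul_pos h1 h2) (by omega)).ne'
  have h2m : 2 ∣ t.1 * t.2 * (t.1 + t.2) := by
    rcases Nat.even_or_odd t.1 with he | ho
    · exact Dvd.dvd.mul_right (Dvd.dvd.mul_right he.two_dvd _) _
    · rcases Nat.even_or_odd t.2 with he | ho'
      · exact Dvd.dvd.mul_right (Dvd.dvd.mul_left he.two_dvd _) _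
      · exact Dvd.dvd.mul_left (ho.add_odd ho').two_dvd _
  have h4 : 2 ∣ rad t :=
    Finset.dvd_prod_of_mem (fun p : ℕ => p) (Nat.mem_primeFactors.2 ⟨Nat.prime_two, h2m, hm0⟩)
  have h5 : 0 < rad t := Finset.prod_pos fun p hp => (Nat.prime_of_mem_primeFactors hp).pos
  exact Nat.le_of_dvd h5 h4

/-- the probability that a triple is supported -/
theorem supp_prob {Ω : Type*} [MeasurableSpace Ω] {P : Measure Ω} {γ : ℝ} (hγ : 0 ≤ γ)
    {E : ℕ → Set Ω} (h : IsSparse P γ E) (T : Finset ℕ) {t : ℕ × ℕ} (ht : IsTriple t) :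
    P {ω | Supported E T ω t} ≤
      ENNReal.ofReal ((∏ p ∈ T, max 1 (p : ℝ) ^ γ) * (rad t : ℝ) ^ (-γ)) := by
  classical
  obtain ⟨h1, h2, h3⟩ := ht
  set m := t.1 * t.2 * (t.1 + t.2) with hm
  have hm0 : m ≠ 0 := (Nat.mul_pos (Nat.mul_pos h1 h2) (by omega)).ne'
  have hsub : {ω | Supported E T ω t} ⊆ ⋂ p ∈ m.primeFactors \ T, E p := by
    intro ω hω
    simp only [Set.mem_iInter]
    intro p hp
    rw [mem_sdiff] at hp
    rcases hω p (Nat.prime_of_mem_primeFactors hp.1) (Nat.dvd_of_mem_primeFactors hp.1) with h | h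
    · exact absurd h hp.2
    · exact h
  refine (measure_mono hsub).trans ((h _ fun p hp =>
    Nat.prime_of_mem_primeFactors (mem_sdiff.1 hp).1).trans (ENNReal.ofReal_le_ofReal ?_))
  have e1 : (rad t : ℝ) ^ (-γ) = ∏ p ∈ m.primeFactors, (p : ℝ) ^ (-γ) := by
    unfold rad
    rw [← hm, Nat.cast_prod, Real.finsetProd_rpow _ _ fun p _ => Nat.cast_nonneg p]
  have e2 : ∏ p ∈ m.primeFactors, (p : ℝ) ^ (-γ) =
      (∏ p ∈ m.primeFactors \ T, (p : ℝ) ^ (-γ)) * ∏ p ∈ m.primeFactors ∩ T, (p : ℝ) ^ (-γ) := by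
    rw [← prod_sdiff (inter_subset_left : m.primeFactors ∩ T ⊆ m.primeFactors)]
    congr 1
    refine prod_congr ?_ fun _ _ => rfl
    ext p
    simp only [mem_sdiff, mem_inter, not_and]
    tauto
  have e3 : (∏ p ∈ m.primeFactors ∩ T, (p : ℝ) ^ (-γ)) * ∏ p ∈ m.primeFactors ∩ T, max 1 (p : ℝ) ^ γ
      = 1 := by
    rw [← prod_mul_distrib]
    refine prod_eq_one fun p hp => ?_
    have hp1 : (1 : ℝ) ≤ p := by
      exact_mod_cast (Nat.prime_of_mem_primeFactors (mem_inter.1 hp).1).one_le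
    rw [max_eq_right hp1, ← Real.rpow_add (by linarith), neg_add_cancel, Real.rpow_zero]
  have e4 : ∏ p ∈ m.primeFactors ∩ T, max 1 (p : ℝ) ^ γ ≤ ∏ p ∈ T, max 1 (p : ℝ) ^ γ := by
    rw [← prod_sdiff (inter_subset_right : m.primeFactors ∩ T ⊆ T)]
    refine le_mul_of_one_le_left (prod_nonneg fun p _ => by positivity) ?_
    have := prod_le_prod (s := T \ (m.primeFactors ∩ T)) (f := fun _ => (1 : ℝ))
      (g := fun p : ℕ => max 1 (p : ℝ) ^ γ) (fun _ _ => zero_le_one)
      (fun p _ => Real.one_le_rpow (le_max_left _ _) hγ)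
    simpa using this
  have hD : 0 ≤ ∏ p ∈ m.primeFactors \ T, (p : ℝ) ^ (-γ) :=
    prod_nonneg fun p _ => Real.rpow_nonneg (Nat.cast_nonneg p) _
  have hI : 0 ≤ ∏ p ∈ m.primeFactors ∩ T, (p : ℝ) ^ (-γ) :=
    prod_nonneg fun p _ => Real.rpow_nonneg (Nat.cast_nonneg p) _
  rw [e1, e2]
  calc ∏ p ∈ m.primeFactors \ T, (p : ℝ) ^ (-γ) =
        (∏ p ∈ m.primeFactors \ T, (p : ℝ) ^ (-γ)) *
          ((∏ p ∈ m.primeFactors ∩ T, (p : ℝ) ^ (-γ)) *
            ∏ p ∈ m.primeFactors ∩ T, max 1 (p : ℝ) ^ γ) := by rw [e3, mul_one]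
    _ = (∏ p ∈ m.primeFactors ∩ T, max 1 (p : ℝ) ^ γ) *
          ((∏ p ∈ m.primeFactors \ T, (p : ℝ) ^ (-γ)) *
            ∏ p ∈ m.primeFactors ∩ T, (p : ℝ) ^ (-γ)) := by ring
    _ ≤ _ := mul_le_mul_of_nonneg_right e4 (mul_nonneg hD hI)

/-- **Theorem.** Let `γ > 1/3`. There is an exponent `M` with the following property. Let `S` be a
random set of primes, `S = {p | ω ∈ E p}`, which contains a finite set `D` of primes with probability
at most `∏_{p ∈ D} p ^ (-γ)`. Almost surely, for every finite set `T` of primes, only finitely many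
abc triples, of any height, supported on `S ∪ T` violate `c < rad (abc) ^ M`; in particular there
is an `M'` such that all of them satisfy `c < rad (abc) ^ M'`. -/
theorem result (γ : ℝ) (hγ : 1 / 3 < γ) : ∃ M : ℕ, ∀ {Ω : Type*} [MeasurableSpace Ω]
    (P : Measure Ω) (E : ℕ → Set Ω), IsSparse P γ E → ∀ᵐ ω ∂P, ∀ T : Finset ℕ,
      {t : ℕ × ℕ | IsTriple t ∧ Supported E T ω t ∧ ¬ t.1 + t.2 < rad t ^ M}.Finite ∧
      ∃ M' : ℕ, ∀ t : ℕ × ℕ, IsTriple t → Supported E T ω t → t.1 + t.2 < rad t ^ M' := by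
  classical
  obtain ⟨M, C, hC, hc⟩ := Pool.Agent.Results.MP_2ec8a3_nt.SquareRootAllHeights.result
    ((γ - 1 / 3) / 2) (by linarith)
  refine ⟨M, fun {Ω} _ P E hE => ?_⟩
  have hγ0 : 0 < γ := by linarith
  set V : Set (ℕ × ℕ) := {t | IsTriple t ∧ rad t ^ M ≤ t.1 + t.2} with hV
  have hsum : Summable fun t : V => (rad t.1 : ℝ) ^ (-γ) := by
    refine Pool.Agent.T2H21.RS.summable_rpow (fun t : V => rad t.1)
      (fun t => by have := two_le_rad t.2.1; omega) (C := C) (θ := 1 / 3 + (γ - 1 / 3) / 2)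
      (by linarith) (by linarith) ?_
    intro X hX s hs
    obtain ⟨f1, f2, -, -⟩ := hc X hX
    have h1 : (s.map (Function.Embedding.subtype _)).card ≤ (exceptions M X).ncard := by
      rw [Set.ncard_eq_toFinset_card _ f1]
      refine card_le_card fun q hq => ?_
      rw [mem_map] at hq
      obtain ⟨u, hu, rfl⟩ := hq
      rw [Set.Finite.mem_toFinset]
      exact ⟨u.2.1, hs u hu, u.2.2⟩
    rw [card_map] at h1
    exact le_trans (by exact_mod_cast h1) f2
  have key : ∀ T : Finset ℕ, ∀ᵐ ω ∂P,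
      {t : ℕ × ℕ | IsTriple t ∧ Supported E T ω t ∧ ¬ t.1 + t.2 < rad t ^ M}.Finite := by
    intro T
    have hfin : ∑' t : V, P {ω | Supported E T ω t.1} ≠ ⊤ := by
      refine ne_top_of_le_ne_top ?_ (ENNReal.tsum_le_tsum fun t =>
        supp_prob hγ0.le hE T t.2.1)
      exact (hsum.mul_left _).tsum_ofReal_ne_top
    filter_upwards [ae_finite_setOfPred_mem hfin] with ω hω
    refine (hω.image Subtype.val).subset ?_
    rintro t ⟨h1, h2, h3⟩
    exact ⟨⟨t, h1, not_lt.1 h3⟩, h2, rfl⟩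
  rw [← ae_all_iff] at key
  filter_upwards [key] with ω hω T
  refine ⟨hω T, ?_⟩
  obtain ⟨F, hF⟩ : ∃ F, F = (hω T).toFinset := ⟨_, rfl⟩
  refine ⟨M + ∑ t ∈ F, (t.1 + t.2), fun t ht hs => ?_⟩
  have h2 := two_le_rad ht
  by_cases h : t.1 + t.2 < rad t ^ M
  · exact lt_of_lt_of_le h (Nat.pow_le_pow_right (by omega) (by omega))
  · have hmem : t ∈ F := by
      rw [hF, Set.Finite.mem_toFinset]
      exact ⟨ht, hs, h⟩
    have h3 : t.1 + t.2 ≤ ∑ t ∈ F, (t.1 + t.2) :=
      single_le_sum (f := fun t : ℕ × ℕ => t.1 + t.2) (fun _ _ => Nat.zero_le _) hmem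
    calc t.1 + t.2 < 2 ^ (t.1 + t.2) := Nat.lt_two_pow_self
      _ ≤ 2 ^ (M + ∑ t ∈ F, (t.1 + t.2)) := Nat.pow_le_pow_right (by norm_num) (by omega)
      _ ≤ rad t ^ (M + ∑ t ∈ F, (t.1 + t.2)) := Nat.pow_le_pow_left h2 _

end Pool.Agent.Results.MP_2ec8a3_nt.RandomPrimeSupport
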