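import Pool.Agent.T2H20.AH.Ci

/-!
# The square root bound for the exceptions of Oesterlé's inequality, at all heights

For every `ε > 0` there are an exponent `M` and a constant `C` such that for all `X ≥ 1` at most
`C X ^ (1/3 + ε)` abc triples with `rad (abc) ≤ X`, of any height, violate `c < rad (abc) ^ M`. (The
number of all the triples with `rad (abc) ≤ X` is about `X ^ (2/3)`.) At most
`C X ^ ε √(R₁ R₂)` of the exceptions have two members of radicals at most `R₁` and `R₂`, and at
most `C X ^ ε (B X) ^ (1/4)` have a member of radical at most `B`.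

Proof. The height of a triple is at most `exp exp (log X) ^ O(1)`, so `O(X ^ ε)` scales
`X ^ n ≤ c < X ^ (2 n)`, `n = M₀ 2 ^ s`, suffice. At a scale the exponents of the primes in the members
are divided by `U = n / Ξ`, with a level `Ξ` in a bounded set chosen so that the primes with
exponents in `[U, d U)` are light. If the `U`-th root of the member with the largest radical has a
divisor which is large and has a radical `X ^ O(ε)`, that member is divisible by a large power
`D ^ Z` with `D = X ^ O(ε)`. The other two members are, up to `U`-th powers of known numbers and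
small factors, products of a bounded number of `U`-th powers of numbers whose exponents are almost
equal; by Hölder's inequality for approximate groups in `(ℤ / D ^ Z) ˣ` the number of pairs is at
most the geometric mean of the numbers of products in very few classes, which are bounded by
interpolation determinants (a `p`-adic form of the method of linear forms in two logarithms)
applied to quotients of *products of radicals*. If there is no such divisor the member is, up to
known factors, a product of powers of few primes; two such members are counted by simultaneous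
approximation of their exponents, sunflowers, and the same interpolation determinants, modulo a
large power or in the real numbers.
-/

set_option autoImplicit false

namespace Pool.Agent.Results.MP_2ec8a3_nt.SquareRootAllHeights

/-- the product of the primes dividing `n` -/
def radical (n : ℕ) : ℕ := ∏ p ∈ n.primeFactors, p

/-- the radical of `abc` for the triple `(a, b, a + b)` written `(a, b)` -/
def rad3 (q : ℕ × ℕ) : ℕ := radical (q.1 * q.2 * (q.1 + q.2))

/-- the members `a`, `b`, `c` of the triple `(a, b, a + b)` written `(a, b)` -/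
def member (q : ℕ × ℕ) : Fin 3 → ℕ := ![q.1, q.2, q.1 + q.2]

/-- the exceptions to Oesterlé's inequality with the exponent `M`, of radical at most `X`: the abc
triples `(a, b, c)`, `c = a + b`, written `(a, b)`, where `a, b ≥ 1` are coprime,
`rad (abc) ≤ X` and `rad (abc) ^ M ≤ c`; there is no restriction on the size of `c` -/
def exceptions (M X : ℕ) : Set (ℕ × ℕ) :=
  {q | (0 < q.1 ∧ 0 < q.2 ∧ Nat.Coprime q.1 q.2) ∧ rad3 q ≤ X ∧ rad3 q ^ M ≤ q.1 + q.2}

open Pool.Agent.T2H20.ABC Pool.Agent.T2H20.AH Pool.Agent.H785R2.ABC Pool.Agent.H785R2.ABC.EC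

theorem member_eq (q : ℕ × ℕ) (i : Fin 3) : member q i = num (tri q) i := by
  have h : ∀ i : Fin 3, i = 0 ∨ i = 1 ∨ i = 2 := by decide
  rcases h i with rfl | rfl | rfl <;> rfl

/-- there are finitely many abc triples with a given bound for the radical -/
theorem finite_exceptions (M : ℕ) {X : ℕ} (hX : 1 ≤ X) : (exceptions M X).Finite := by
  refine Set.Finite.subset (Finset.finite_toSet
    ((Finset.range (⌊Real.exp (Real.exp (Hb X))⌋₊ + 1)) ×ˢ
      (Finset.range (⌊Real.exp (Real.exp (Hb X))⌋₊ + 1)))) ?_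
  intro q hq
  obtain ⟨h1, h2, h3⟩ := hq
  have h4 := height_q (q := q) ⟨h1.1, h1.2.1, h1.2.2⟩ hX (rads_le' h1.1 h1.2.1 h2)
  have h5 : (0 : ℝ) < ((q.1 + q.2 : ℕ) : ℝ) := by
    have : 0 < q.1 + q.2 := by have := h1.1; omega
    exact_mod_cast this
  have h6 : q.1 + q.2 ≤ ⌊Real.exp (Real.exp (Hb X))⌋₊ := by
    apply Nat.le_floor
    rw [← Real.log_le_iff_le_exp h5]
    exact h4
  simp only [Finset.coe_product, Finset.coe_range, Set.mem_prod, Set.mem_Iio]
  omega

theorem ncard_le {S T : Set (ℕ × ℕ)} (hT : T.Finite) (h : S ⊆ T) {B : ℝ}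
    (hB : ∀ Q : Finset (ℕ × ℕ), (∀ q ∈ Q, q ∈ S) → (Q.card : ℝ) ≤ B) : (S.ncard : ℝ) ≤ B := by
  have hf : S.Finite := hT.subset h
  rw [Set.ncard_eq_toFinset_card S hf]
  exact hB _ fun q hq => hf.mem_toFinset.mp hq

/-- **The square root bound at all heights.** For every `ε > 0` there are `M` and `C` such that for
all `X ≥ 1`: the set of the abc triples with `rad (abc) ≤ X` and `c ≥ rad (abc) ^ M`, with `c` as
large as one likes, has at most `C X ^ (1/3 + ε)` elements; for all `B ≥ 1` at most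
`C X ^ ε (B X) ^ (1/4)` of them have a member of radical at most `B` (for instance
`C X ^ (1/4 + ε)` pairs of consecutive integers); and for all `R₁, R₂ ≥ 1` at most
`C X ^ ε √(R₁ R₂)` of them have two members, of radicals at most `R₁` and `R₂` respectively. -/
theorem result : ∀ ε : ℝ, 0 < ε → ∃ M : ℕ, ∃ C : ℝ, 0 < C ∧ ∀ X : ℕ, 1 ≤ X →
    (exceptions M X).Finite ∧ ((exceptions M X).ncard : ℝ) ≤ C * (X : ℝ) ^ (1 / 3 + ε) ∧
    (∀ B : ℕ, 1 ≤ B →
      ({q | q ∈ exceptions M X ∧ ∃ i, radical (member q i) ≤ B}.ncard : ℝ) ≤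
        C * (X : ℝ) ^ ε * ((B : ℝ) * X) ^ ((1 : ℝ) / 4)) ∧
    (∀ R₁ R₂ : ℕ, 1 ≤ R₁ → 1 ≤ R₂ →
      ({q | q ∈ exceptions M X ∧ ∃ i j, i ≠ j ∧ radical (member q i) ≤ R₁ ∧
        radical (member q j) ≤ R₂}.ncard : ℝ) ≤
        C * (X : ℝ) ^ ε * Real.sqrt ((R₁ : ℝ) * R₂)) := by
  intro ε hε
  obtain ⟨M₁, -, C₁, hC₁, hc₁⟩ := exceptions_all ε hε
  obtain ⟨M₂, C₂, hC₂, hc₂⟩ := exceptions_two ε hε
  refine ⟨max M₁ M₂, C₁ + C₂, by positivity, fun X hX => ?_⟩
  have hX0 : (0 : ℝ) < X := by exact_mod_cast hX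
  have hX1 : (1 : ℝ) ≤ X := by exact_mod_cast hX
  have hfin := finite_exceptions (max M₁ M₂) hX
  have hρ : ∀ (q : ℕ × ℕ) (m : ℕ), m ≤ max M₁ M₂ → q ∈ exceptions (max M₁ M₂) X →
      rad (q.1 * q.2 * (q.1 + q.2)) ^ m ≤ q.1 + q.2 := fun q m hm hq =>
    (Nat.pow_le_pow_right (Pool.Agent.T2H20.AH.rad_pos' _) hm).trans hq.2.2
  refine ⟨hfin, ?_, ?_, ?_⟩
  · refine ncard_le hfin (fun _ h => h) ?_
    intro Q hQ
    obtain ⟨B, hB⟩ : ∃ B, B = ⌊(X : ℝ) ^ ((1 : ℝ) / 3)⌋₊ := ⟨_, rfl⟩
    have hB1 : 1 ≤ B := by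
      rw [hB]
      apply Nat.le_floor
      push_cast
      exact Real.one_le_rpow hX1 (by norm_num)
    have hBX : (B : ℝ) ≤ (X : ℝ) ^ ((1 : ℝ) / 3) := by
      rw [hB]; exact Nat.floor_le (by positivity)
    have h1 := hc₁ X B hX hB1 Q (by
      intro q hq
      obtain ⟨⟨g1, g2, g3⟩, g4, g5⟩ := hQ q hq
      refine ⟨g1, g2, g3, g4, ?_, hρ q _ (le_max_left _ _) (hQ q hq)⟩
      obtain ⟨i, hi⟩ := exists_small g1 g2 g3
      refine ⟨i, ?_⟩
      rw [hB]
      apply Nat.le_floor
      have h2 : ((rad (num (tri q) i) : ℕ) : ℝ) ^ 3 ≤ X := by exact_mod_cast hi.trans g4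
      calc ((rad (num (tri q) i) : ℕ) : ℝ) =
            (((rad (num (tri q) i) : ℕ) : ℝ) ^ 3) ^ ((1 : ℝ) / 3) := by
            rw [← Real.rpow_natCast, ← Real.rpow_mul (by positivity)]
            norm_num
        _ ≤ (X : ℝ) ^ ((1 : ℝ) / 3) := Real.rpow_le_rpow (by positivity) h2 (by norm_num))
    refine h1.trans ?_
    have h2 : ((B : ℝ) * X) ^ ((1 : ℝ) / 4) ≤ (X : ℝ) ^ ((1 : ℝ) / 3) := by
      calc ((B : ℝ) * X) ^ ((1 : ℝ) / 4) ≤ ((X : ℝ) ^ ((1 : ℝ) / 3) * X) ^ ((1 : ℝ) / 4) := by
            apply Real.rpow_le_rpow (by positivity) _ (by norm_num)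
            exact mul_le_mul_of_nonneg_right hBX hX0.le
        _ = (X : ℝ) ^ ((1 : ℝ) / 3) := by
            have : (X : ℝ) ^ ((1 : ℝ) / 3) * X = (X : ℝ) ^ ((4 : ℝ) / 3) := by
              conv_lhs => rw [← Real.rpow_one (X : ℝ)]
              rw [← Real.rpow_mul hX0.le, ← Real.rpow_add hX0]
              norm_num
            rw [this, ← Real.rpow_mul hX0.le]
            norm_num
    calc C₁ * (X : ℝ) ^ ε * ((B : ℝ) * X) ^ ((1 : ℝ) / 4)
        ≤ C₁ * (X : ℝ) ^ ε * (X : ℝ) ^ ((1 : ℝ) / 3) :=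
          mul_le_mul_of_nonneg_left h2 (by positivity)
      _ = C₁ * (X : ℝ) ^ (1 / 3 + ε) := by
          rw [mul_assoc, ← Real.rpow_add hX0]
          congr 2
          ring
      _ ≤ (C₁ + C₂) * (X : ℝ) ^ (1 / 3 + ε) :=
          mul_le_mul_of_nonneg_right (by linarith) (by positivity)
  · intro B hB
    refine ncard_le hfin (fun _ h => h.1) ?_
    intro Q hQ
    refine (hc₁ X B hX hB Q (by
      intro q hq
      obtain ⟨hE, i, hi⟩ := hQ q hq
      obtain ⟨⟨g1, g2, g3⟩, g4, g5⟩ := hE
      refine ⟨g1, g2, g3, g4, ⟨i, ?_⟩, hρ q _ (le_max_left _ _) (hQ q hq).1⟩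
      rw [← member_eq]
      exact hi)).trans ?_
    apply mul_le_mul_of_nonneg_right _ (by positivity)
    exact mul_le_mul_of_nonneg_right (by linarith) (by positivity)
  · intro R₁ R₂ hR₁ hR₂
    refine ncard_le hfin (fun _ h => h.1) ?_
    intro Q hQ
    refine (hc₂ X R₁ R₂ hX hR₁ hR₂ Q (by
      intro q hq
      obtain ⟨hE, i, j, hij, hi, hj⟩ := hQ q hq
      obtain ⟨⟨g1, g2, g3⟩, g4, g5⟩ := hE
      refine ⟨g1, g2, g3, g4, ⟨i, j, hij, ?_, ?_⟩, hρ q _ (le_max_right _ _) (hQ q hq).1⟩
      · rw [← member_eq]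
        exact hi
      · rw [← member_eq]
        exact hj)).trans ?_
    apply mul_le_mul_of_nonneg_right _ (by positivity)
    exact mul_le_mul_of_nonneg_right (by linarith) (by positivity)

end Pool.Agent.Results.MP_2ec8a3_nt.SquareRootAllHeights
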