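import Pool.Agent.T2H20.ABC.Two

/-!
# abc triples of high quality two members of which are nearly products of few powers

Let `n` and `ε > 0` be given. There are `K` and `δ > 0` such that, for all `X`, at most `C X ^ ε` abc
triples with `X ^ K ≤ c ≤ exp (X ^ δ)` whose members have radicals at most `X` have two members which
are products of powers of `n` integers `≤ X`; there is no condition of this kind on the third
member. (For instance, for all but `C X ^ ε` pairs of coprime prime powers `p ^ k`, `q ^ l` with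
`p, q ≤ X` and `X ^ K ≤ p ^ k ≤ exp (X ^ δ)` the radical of `p ^ k ± q ^ l` is larger than `X`.)
More generally, if the two members are allowed further factors `≤ X ^ A` of radicals at most `Z₁`
and `Z₂`, there are at most `C X ^ ε Z₁ Z₂` such triples.
-/

set_option autoImplicit false

namespace Pool.Agent.Results.MP_2ec8a3_nt.TwoNearPowerMembers

/-- the product of the primes dividing `n` -/
def radical (n : ℕ) : ℕ := ∏ p ∈ n.primeFactors, p

/-- the three members `a`, `b`, `c = a + b` of the triple written `(a, b)` -/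
def member (q : ℕ × ℕ) : Fin 3 → ℕ := ![q.1, q.2, q.1 + q.2]

/-- `u` is a product of powers, with arbitrary exponents, of `n` positive integers `≤ X` -/
def PowerProduct (n X u : ℕ) : Prop :=
  ∃ x e : Fin n → ℕ, (∀ i, 0 < x i ∧ x i ≤ X) ∧ u = ∏ i, x i ^ e i

/-- `t = s u`, where `u` is a product of powers of `n` integers `≤ X` and the integer `s ≤ X ^ A` has
radical at most `Z` -/
def Near (n A X Z t : ℕ) : Prop :=
  ∃ s u : ℕ, t = s * u ∧ PowerProduct n X u ∧ radical s ≤ Z ∧ s ≤ X ^ A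

/-- the abc triples `(a, b, a + b)`, written `(a, b)`, `a, b ≥ 1` coprime, with `a + b ≥ X ^ K` and
`log (a + b) ≤ X ^ δ`, whose members have radicals at most `X`, two different members of which are
products of powers of `n` integers `≤ X` up to factors `≤ X ^ A` of radicals at most `Z₁` and at most
`Z₂` -/
def triples (n K : ℕ) (δ : ℝ) (A X Z₁ Z₂ : ℕ) : Set (ℕ × ℕ) :=
  {q | (0 < q.1 ∧ 0 < q.2 ∧ Nat.Coprime q.1 q.2) ∧ (∀ i, radical (member q i) ≤ X) ∧
    X ^ K ≤ q.1 + q.2 ∧ Real.log ((q.1 + q.2 : ℕ) : ℝ) ≤ (X : ℝ) ^ δ ∧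
    ∃ i j, i ≠ j ∧ Near n A X Z₁ (member q i) ∧ Near n A X Z₂ (member q j)}

open Pool.Agent.T2H20.ABC Pool.Agent.H785R2.ABC

theorem member_eq (q : ℕ × ℕ) (i : Fin 3) : member q i = num (tri q) i := by
  fin_cases i <;> rfl

theorem near_eq {n A X Z t : ℕ} (h : Near n A X Z t) :
    Pool.Agent.T2H20.ABC.Near n X Z (X ^ A) t := by
  obtain ⟨s, u, h1, ⟨x, e, h2, h3⟩, h4, h5⟩ := h
  exact ⟨s, u, h1, ⟨x, e, fun i => ⟨(h2 i).1, by exact_mod_cast (h2 i).2⟩, h3⟩, h4, h5⟩

theorem third : ∀ i j : Fin 3, i ≠ j → ∃ k, j ≠ k ∧ i ≠ k := by decide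

/-- For all `n` and `ε > 0` there are `K` and `δ > 0` such that for every `A`, with a constant `C`
depending on `n`, `ε` and `A`, for all `X, Z₁, Z₂ ≥ 1` there are at most `C X ^ ε Z₁ Z₂` abc triples
with `X ^ K ≤ c ≤ exp (X ^ δ)` whose members have radicals at most `X`, two different members of which
are products of powers of `n` integers `≤ X` up to factors `≤ X ^ A` of radicals at most `Z₁` and at
most `Z₂`. -/
theorem result : ∀ (n : ℕ) (ε : ℝ), 0 < ε → ∃ (K : ℕ) (δ : ℝ), 0 < δ ∧ ∀ A : ℕ, ∃ C : ℝ,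
    ∀ X Z₁ Z₂ : ℕ, 1 ≤ X → 1 ≤ Z₁ → 1 ≤ Z₂ → (triples n K δ A X Z₁ Z₂).Finite ∧
      ((triples n K δ A X Z₁ Z₂).ncard : ℝ) ≤ C * (X : ℝ) ^ ε * (Z₁ * Z₂) := by
  classical
  intro n ε hε
  obtain ⟨K, δ, hδ, h⟩ := two_members n ε hε
  refine ⟨K, δ, hδ, fun A => ?_⟩
  obtain ⟨C, hC, hc⟩ := h A
  refine ⟨9 * C, ?_⟩
  intro X Z₁ Z₂ hX hZ₁ hZ₂
  have hf : (triples n K δ A X Z₁ Z₂).Finite := by
    refine Set.Finite.subset (Finset.finite_toSet
      ((Finset.range (⌊Real.exp ((X : ℝ) ^ δ)⌋₊ + 1)) ×ˢ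
        (Finset.range (⌊Real.exp ((X : ℝ) ^ δ)⌋₊ + 1)))) ?_
    rintro q ⟨⟨h1, h2, -⟩, -, -, h3, -⟩
    have h4 : q.1 + q.2 ≤ ⌊Real.exp ((X : ℝ) ^ δ)⌋₊ := by
      apply Nat.le_floor
      rw [← Real.log_le_iff_le_exp (by exact_mod_cast (by omega : 0 < q.1 + q.2))]
      exact h3
    simp only [Finset.coe_product, Finset.coe_range, Set.mem_prod, Set.mem_Iio]
    omega
  refine ⟨hf, ?_⟩
  rw [Set.ncard_eq_toFinset_card _ hf]
  have hQ : ∀ q ∈ hf.toFinset, q ∈ triples n K δ A X Z₁ Z₂ := fun q hq => hf.mem_toFinset.mp hq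
  have hcov := card_le_of_cover hf.toFinset (Finset.univ : Finset (Fin 3 × Fin 3))
    (fun z q => z.1 ≠ z.2 ∧ Near n A X Z₁ (member q z.1) ∧ Near n A X Z₂ (member q z.2))
    (C * (X : ℝ) ^ ε * (Z₁ * Z₂)) (by
      intro q hq
      obtain ⟨-, -, -, -, i, j, g1, g2, g3⟩ := hQ q hq
      exact ⟨(i, j), Finset.mem_univ _, g1, g2, g3⟩) (by
      rintro ⟨i, j⟩ -
      simp only
      by_cases hij : i = j
      · have : (hf.toFinset.filter fun q => i ≠ j ∧ Near n A X Z₁ (member q i) ∧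
            Near n A X Z₂ (member q j)) = ∅ := by
          rw [Finset.filter_eq_empty_iff]
          intro q _ h
          exact h.1 hij
        rw [this, Finset.card_empty, Nat.cast_zero]
        positivity
      obtain ⟨k, hjk, hik⟩ := third i j hij
      apply hc X Z₁ Z₂ hX hZ₁ hZ₂ i j k hij hjk hik
      intro q hq
      rw [Finset.mem_filter] at hq
      obtain ⟨hq, -, g1, g2⟩ := hq
      obtain ⟨t1, t2, t3, t4, -⟩ := hQ q hq
      refine ⟨t1, fun l => ?_, t3, t4, ?_, ?_⟩
      · have := t2 l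
        rw [member_eq] at this
        exact this
      · have := near_eq g1
        rwa [member_eq] at this
      · have := near_eq g2
        rwa [member_eq] at this)
  refine hcov.trans (le_of_eq ?_)
  rw [Finset.card_univ, Fintype.card_prod, Fintype.card_fin]
  push_cast
  ring

end Pool.Agent.Results.MP_2ec8a3_nt.TwoNearPowerMembers
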